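import Pool.Agent.Helper76_LT.Lin

/-!
# LT, module TMS: the homotopy
-/

set_option autoImplicit false
set_option linter.unusedSectionVars false

namespace Pool.Agent.LT.H76

open Matrix Finsupp

section gd

variable {G : Type} [Group G] {V : Type}

theorem gdn_gd (a : V → G → V) (R : Finset G) : ∀ k, Gdn a R k ⊆ Gd a R
  | 0 => fun _ h => h
  | _ + 1 => fun _ h => h.1

theorem gdn_succ (a : V → G → V) (R : Finset G) : ∀ k, Gdn a R (k + 1) ⊆ Gdn a R k
  | 0 => fun _ h => h.1
  | k + 1 => fun _ h => ⟨h.1, fun g hg => gdn_succ a R k (h.2 g hg)⟩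

theorem gdn_anti (a : V → G → V) (R : Finset G) {j k : ℕ} (h : j ≤ k) :
    Gdn a R k ⊆ Gdn a R j := by
  induction h with
  | refl => exact subset_rfl
  | step _ ih => exact (gdn_succ a R _).trans ih

theorem gdn_step {a : V → G → V} {R : Finset G} {k : ℕ} {v : V} (h : v ∈ Gdn a R (k + 1)) {g : G}
    (hg : g ∈ R) : a v g ∈ Gdn a R k := h.2 g hg

theorem gd_one {a : V → G → V} {R : Finset G} {v : V} (h : v ∈ Gd a R) : a v 1 = v := h.1

theorem gd_mul {a : V → G → V} {R : Finset G} {v : V} (h : v ∈ Gd a R) {g k : G} (hg : g ∈ R)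
    (hk : k ∈ R) : a (a v g) k = a v (g * k) := h.2.1 g hg k hk

/-- Translated chains at a good point. -/
theorem bet_trl {X : Type} {a : V → G → V} {R : Finset G} {v : V} (h : v ∈ Gd a R) {g : G}
    (hg : g ∈ R) (z : G × X →₀ ℤ) (hz : ∀ p ∈ z.support, p.1 ∈ R) :
    bet a (a v g) z = bet a v (trl g z) := by
  unfold bet trl
  rw [← Finsupp.mapDomain_comp]
  apply map_congr'
  intro p hp
  show (a (a v g) p.1, p.2) = (a v (g * p.1), p.2)
  rw [gd_mul h hg (hz p hp)]

theorem lists_of {K : Finset G} (a : V → G → V) (v : V) : ∀ t : List V,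
    (∀ x ∈ t, ∃ k ∈ K, x = a v k) → ∃ ks : List G, (∀ k ∈ ks, k ∈ K) ∧ ks.map (a v) = t
  | [], _ => ⟨[], by simp, rfl⟩
  | x :: t, h => by
    obtain ⟨k, hk, hx⟩ := h x List.mem_cons_self
    obtain ⟨ks, h1, h2⟩ := lists_of a v t fun y hy => h y (List.mem_cons_of_mem _ hy)
    refine ⟨k :: ks, ?_, ?_⟩
    · intro j hj
      rcases List.mem_cons.1 hj with rfl | hj
      · exact hk
      · exact h1 j hj
    · rw [List.map_cons, h2, hx]

theorem map_shift {a : V → G → V} {R : Finset G} {v : V} (h : v ∈ Gd a R) {g : G} (hg : g ∈ R)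
    (ks : List G) (hk : ∀ k ∈ ks, g⁻¹ * k ∈ R) :
    (ks.map fun k => g⁻¹ * k).map (a (a v g)) = ks.map (a v) := by
  rw [List.map_map]
  apply List.map_congr_left
  intro k hkk
  show a (a v g) (g⁻¹ * k) = a v k
  rw [gd_mul h hg (hk k hkk), mul_inv_cancel_left]

theorem prism_head {A : Type} (c : A → A) (u : A) (t : List A) (l : List A)
    (hl : l ∈ (prism c (u :: t)).support) : ∃ t', l = u :: t' := by
  classical
  unfold prism at hl
  rcases Finset.mem_union.1 (Finsupp.support_sub hl) with h | h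
  · have := Finsupp.support_single_subset h
    rw [Finset.mem_singleton] at this
    exact ⟨_, this⟩
  · obtain ⟨t', -, ht'⟩ := mem_supp_map h
    exact ⟨t', ht'.symm⟩

end gd

section hl

variable {G : Type} [Group G] {C : Res G} {ψ : List G → (G × C.X →₀ ℤ)} {V : Type}

theorem hL_nil (a : V → G → V) (P R : Finset G) : hL C ψ a P R [] = 0 := by
  unfold hL
  rfl

/-- The value of `hL` is zero, or the chain of a list over `P`. -/
theorem hL_cases (a : V → G → V) (P R : Finset G) (w : V) (t : List V) :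
    hL C ψ a P R (w :: t) = 0 ∨ ∃ gs : List G, (∀ g ∈ gs, g ∈ P) ∧ gs.length = t.length ∧
      hL C ψ a P R (w :: t) = bet a w (ψ (1 :: gs)) := by
  classical
  by_cases h : w ∈ Gd a R ∧ ∃ gs : List G, (∀ g ∈ gs, g ∈ P) ∧ t = gs.map (a w)
  · right
    refine ⟨h.2.choose, h.2.choose_spec.1, ?_, ?_⟩
    · conv_rhs => rw [h.2.choose_spec.2, List.length_map]
    · show (if h : w ∈ Gd a R ∧ ∃ gs : List G, (∀ g ∈ gs, g ∈ P) ∧ t = gs.map (a w) then
        bet a w (ψ (1 :: h.2.choose)) else 0) = _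
      rw [dif_pos h]
  · left
    show (if h : w ∈ Gd a R ∧ ∃ gs : List G, (∀ g ∈ gs, g ∈ P) ∧ t = gs.map (a w) then
        bet a w (ψ (1 :: h.2.choose)) else 0) = _
    rw [dif_neg h]

theorem bet_supp {X : Type} (a : V → G → V) (v : V) (z : G × X →₀ ℤ) {p : V × X}
    (h : p ∈ (bet a v z).support) : ∃ q ∈ z.support, p = (a v q.1, q.2) := by
  obtain ⟨q, hq, he⟩ := mem_supp_map h
  exact ⟨q, hq, he.symm⟩

end hl

/-- Finitely many short lists over a finite set. -/
theorem short_fin {G : Type} (P : Finset G) (m : ℕ) :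
    {gs : List G | (∀ g ∈ gs, g ∈ P) ∧ gs.length ≤ m}.Finite := by
  have h1 : {l : List P | l.length ≤ m}.Finite := List.finite_length_le P m
  refine (h1.image (List.map Subtype.val)).subset ?_
  rintro gs ⟨h, hm⟩
  refine ⟨gs.attach.map fun g => ⟨g.1, h g.1 g.2⟩, ?_, ?_⟩
  · show List.length _ ≤ m
    rw [List.length_map, List.length_attach]
    exact hm
  · rw [List.map_map]
    show List.map (fun g : {x // x ∈ gs} => g.1) gs.attach = gs
    exact List.attach_map_subtype_val gs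

theorem short_bd {G X : Type} [One G] (ψ : List G → (G × X →₀ ℤ)) (P : Finset G) (m : ℕ) :
    ∃ (E : Finset G) (B : ℝ), 0 ≤ B ∧ ∀ gs : List G, (∀ g ∈ gs, g ∈ P) → gs.length ≤ m →
      (∀ p ∈ (ψ (1 :: gs)).support, p.1 ∈ E) ∧ n1 (ψ (1 :: gs)) ≤ B := by
  classical
  have hf := short_fin P m
  refine ⟨hf.toFinset.biUnion fun gs => (ψ (1 :: gs)).support.image Prod.fst,
    ∑ gs ∈ hf.toFinset, n1 (ψ (1 :: gs)), Finset.sum_nonneg fun _ _ => n1_nonneg _, ?_⟩
  intro gs h hm
  have hmem : gs ∈ hf.toFinset := hf.mem_toFinset.2 ⟨h, hm⟩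
  constructor
  · intro p hp
    exact Finset.mem_biUnion.2 ⟨gs, hmem, Finset.mem_image_of_mem _ hp⟩
  · exact Finset.single_le_sum (f := fun gs => n1 (ψ (1 :: gs))) (fun _ _ => n1_nonneg _) hmem

/-- Schur test for matrices with finite propagation. -/
theorem bd_prop (sch : SchStmt) {G V X : Type} [Fintype V] [Fintype X] (a : V → G → V)
    (ha : ∀ g, Function.Bijective fun v => a v g) (M : Matrix (V × X) (V × X) ℤ)
    (s : Finset (G × G)) (K : ℝ) (hK : 0 ≤ K)
    (hp : ∀ w v, M w v ≠ 0 → ∃ p ∈ s, w.1 = a (a v.1 p.1) p.2)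
    (hc : ∀ v, ∑ w, |(M w v : ℝ)| ≤ K) :
    Bd (cst M) (K * (1 + Fintype.card X * s.card)) := by
  classical
  apply sch
  · intro w
    have he : ∀ v, |(M w v : ℝ)| ≤ ∑ p ∈ s, if w.1 = a (a v.1 p.1) p.2 then K else 0 := by
      intro v
      by_cases h : M w v = 0
      · rw [h, Int.cast_zero, abs_zero]
        exact Finset.sum_nonneg fun p _ => by split_ifs <;> [exact hK; exact le_rfl]
      · obtain ⟨p, hps, hpw⟩ := hp w v h
        calc |(M w v : ℝ)| ≤ ∑ w', |(M w' v : ℝ)| :=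
              Finset.single_le_sum (f := fun w' => |(M w' v : ℝ)|)
                (fun _ _ => abs_nonneg _) (Finset.mem_univ w)
          _ ≤ K := hc v
          _ = if w.1 = a (a v.1 p.1) p.2 then K else 0 := by rw [if_pos hpw]
          _ ≤ _ := Finset.single_le_sum
              (f := fun p : G × G => if w.1 = a (a v.1 p.1) p.2 then K else 0)
              (fun p _ => by
                show 0 ≤ if w.1 = a (a v.1 p.1) p.2 then K else 0
                split_ifs <;> [exact hK; exact le_rfl]) hps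
    calc ∑ v, |(M w v : ℝ)| ≤ ∑ v : V × X, ∑ p ∈ s, if w.1 = a (a v.1 p.1) p.2 then K else 0 :=
          Finset.sum_le_sum fun v _ => he v
      _ = ∑ p ∈ s, ∑ v : V × X, if w.1 = a (a v.1 p.1) p.2 then K else 0 := Finset.sum_comm
      _ ≤ ∑ p ∈ s, Fintype.card X * K := by
          apply Finset.sum_le_sum
          intro p _
          rw [Fintype.sum_prod_type]
          rw [Finset.sum_comm]
          calc ∑ x : X, ∑ v : V, (if w.1 = a (a v p.1) p.2 then K else 0) ≤ ∑ x : X, K := by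
                apply Finset.sum_le_sum
                intro x _
                obtain ⟨u, hu⟩ := (ha p.2).2 w.1
                obtain ⟨v0, hv0⟩ := (ha p.1).2 u
                rw [Finset.sum_eq_single v0]
                · split_ifs <;> [exact le_rfl; exact hK]
                · intro v _ hv
                  rw [if_neg]
                  intro h
                  apply hv
                  apply (ha p.1).1
                  apply (ha p.2).1
                  show a (a v p.1) p.2 = a (a v0 p.1) p.2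
                  have h1 : a v0 p.1 = u := hv0
                  have h2 : a u p.2 = w.1 := hu
                  rw [h1, h2, ← h]
                · intro h
                  exact absurd (Finset.mem_univ _) h
            _ = Fintype.card X * K := by
                rw [Finset.sum_const, Finset.card_univ, nsmul_eq_mul]
      _ = K * (Fintype.card X * s.card) := by
          rw [Finset.sum_const, nsmul_eq_mul]; ring
      _ ≤ K * (1 + Fintype.card X * s.card) := by
          apply mul_le_mul_of_nonneg_left _ hK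
          linarith
  · intro v
    refine (hc v).trans ?_
    have : (0 : ℝ) ≤ Fintype.card X * s.card := by positivity
    nlinarith

section good

open Classical in
/-- Elements of the group in the lists of `φ`. -/
noncomputable def eA {G : Type} [Group G] (C : Res G) (φ : C.X → (List G →₀ ℤ)) : Finset G :=
  Finset.univ.biUnion fun x => (φ x).support.biUnion fun l => l.toFinset

theorem mem_eA {G : Type} [Group G] {C : Res G} {φ : C.X → (List G →₀ ℤ)} {x : C.X}
    {l : List G} (hl : l ∈ (φ x).support) {g : G} (hg : g ∈ l) : g ∈ eA C φ := by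
  classical
  exact Finset.mem_biUnion.2 ⟨x, Finset.mem_univ _, Finset.mem_biUnion.2
    ⟨l, hl, List.mem_toFinset.2 hg⟩⟩

open Classical in
/-- Elements of the group in the lists of `φ` and their images under `c`. -/
noncomputable def eK {G : Type} [Group G] (C : Res G) (φ : C.X → (List G →₀ ℤ)) (Q : Finset G) :
    Finset G := eA C φ ∪ (eA C φ ×ˢ Q).image fun p => p.1 * p.2

theorem eA_eK {G : Type} [Group G] {C : Res G} {φ : C.X → (List G →₀ ℤ)} {Q : Finset G}
    {g : G} (h : g ∈ eA C φ) : g ∈ eK C φ Q := by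
  classical
  exact Finset.mem_union_left _ h

theorem mul_eK {G : Type} [Group G] {C : Res G} {φ : C.X → (List G →₀ ℤ)} {Q : Finset G}
    {g q : G} (h : g ∈ eA C φ) (hq : q ∈ Q) : g * q ∈ eK C φ Q := by
  classical
  exact Finset.mem_union_right _ (Finset.mem_image.2 ⟨(g, q), Finset.mem_product.2 ⟨h, hq⟩, rfl⟩)

open Classical in
/-- Elements of the group in a family of chains. -/
noncomputable def eC {G : Type} [Group G] (C : Res G) (θ : C.X → (G × C.X →₀ ℤ)) : Finset G :=
  Finset.univ.biUnion fun x => (θ x).support.image Prod.fst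

theorem mem_eC {G : Type} [Group G] {C : Res G} {θ : C.X → (G × C.X →₀ ℤ)} {x : C.X}
    {p : G × C.X} (hp : p ∈ (θ x).support) : p.1 ∈ eC C θ := by
  classical
  exact Finset.mem_biUnion.2 ⟨x, Finset.mem_univ _, Finset.mem_image_of_mem _ hp⟩

variable {G : Type} [Group G] {C : Res G} {φ : C.X → (List G →₀ ℤ)}
    {ψ : List G → (G × C.X →₀ ℤ)} {θ : C.X → (G × C.X →₀ ℤ)}

/-- The conditions on the finite sets. -/
structure Big (C : Res G) (φ : C.X → (List G →₀ ℤ)) (ψ : List G → (G × C.X →₀ ℤ))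
    (θ : C.X → (G × C.X →₀ ℤ)) (n : ℕ) (S Q P R : Finset G) : Prop where
  one : 1 ∈ R
  a : ∀ g ∈ eA C φ, g ∈ R
  q : ∀ g ∈ Q, g ∈ R
  s : ∀ g ∈ eA C φ, ∀ k ∈ eA C φ, g⁻¹ * k ∈ S
  p : ∀ g ∈ eK C φ Q, ∀ k ∈ eK C φ Q, g⁻¹ * k ∈ P
  pr : ∀ g ∈ P, g ∈ R
  t : ∀ g ∈ eC C θ, g ∈ R
  r : ∀ g ∈ eC C C.row, g ∈ R
  psi : ∀ gs : List G, (∀ g ∈ gs, g ∈ P) → gs.length ≤ n + 1 →
    ∀ p ∈ (ψ (1 :: gs)).support, p.1 ∈ R
  hlc : ∀ (V : Type) [Fintype V] [DecidableEq V] (a : V → G → V),
      (∀ g, Function.Bijective fun v => a v g) → ∀ w ∈ Gdn a R (n + 2), ∀ gs : List G,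
      gs.length ≤ n + 1 → (∀ x ∈ 1 :: gs, ∀ y ∈ 1 :: gs, x⁻¹ * y ∈ P) →
      hL C ψ a P R (w :: gs.map (a w)) = bet a w (ψ (1 :: gs)) ∧
      ∀ z, ∑ u, dV C a R z u * hL C ψ a P R (w :: gs.map (a w)) u =
        lin (hL C ψ a P R) (lbd (w :: gs.map (a w))) z

variable {n : ℕ} {S Q P R : Finset G} {V : Type} [Fintype V] [DecidableEq V]
    {a : V → G → V} {c : V → V}

theorem colF_dV (v : V) (x : C.X) (hv : v ∈ Gdn a R (C.dim x)) :
    colF (dV C a R) (v, x) = bet a v (C.row x) := by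
  ext w
  show dV C a R w (v, x) = _
  unfold dV
  rw [if_pos hv]

theorem colF_tM (v : V) (x : C.X) (hv : v ∈ Gd a R) :
    colF (tM C φ ψ θ a P R c) (v, x) = bet a v (θ x) - lin (hL C ψ a P R) (lin (prism c)
      ((φ x).mapDomain (List.map (a v)))) := by
  ext w
  show tM C φ ψ θ a P R c w (v, x) = _
  unfold tM
  rw [if_pos hv]

theorem colF_tM0 (v : V) (x : C.X) (hv : v ∉ Gd a R) :
    colF (tM C φ ψ θ a P R c) (v, x) = 0 := by
  ext w
  show tM C φ ψ θ a P R c w (v, x) = _
  unfold tM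
  rw [if_neg hv]
  rfl

/-- The pairwise condition. -/
theorem pair_P (hb : Big C φ ψ θ n S Q P R) {g : G} (hg : g ∈ eK C φ Q) (ks : List G)
    (hk : ∀ k ∈ ks, k ∈ eK C φ Q) :
    ∀ x ∈ 1 :: (ks.map fun k => g⁻¹ * k), ∀ y ∈ 1 :: (ks.map fun k => g⁻¹ * k), x⁻¹ * y ∈ P := by
  have h : ∀ x ∈ 1 :: (ks.map fun k => g⁻¹ * k), ∃ k ∈ eK C φ Q, x = g⁻¹ * k := by
    intro x hx
    rcases List.mem_cons.1 hx with rfl | hx
    · exact ⟨g, hg, (inv_mul_cancel g).symm⟩
    · obtain ⟨k, hk1, hk2⟩ := List.mem_map.1 hx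
      exact ⟨k, hk k hk1, hk2.symm⟩
  intro x hx y hy
  obtain ⟨k, hk1, rfl⟩ := h x hx
  obtain ⟨k', hk1', rfl⟩ := h y hy
  have : (g⁻¹ * k)⁻¹ * (g⁻¹ * k') = k⁻¹ * k' := by group
  rw [this]
  exact hb.p k hk1 k' hk1'

/-- The lists of the chain of `x` at `v`. -/
theorem lists_x (hb : Big C φ ψ θ n S Q P R) {v : V} (hv : v ∈ Gdn a R (n + 3)) {x : C.X}
    (hx : C.dim x ≤ n) (hl : ∀ l ∈ (φ x).support, l.length = C.dim x + 1)
    {l : List G} (h : l ∈ (φ x).support) :
    ∃ g ∈ eA C φ, ∃ t : List G, l = g :: t ∧ (∀ k ∈ t, k ∈ eA C φ) ∧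
      l.map (a v) = a v g :: (t.map fun k => g⁻¹ * k).map (a (a v g)) ∧ t.length ≤ n ∧
      a v g ∈ Gdn a R (n + 2) := by
  have hlen := hl l h
  cases l with
  | nil => simp at hlen
  | cons g t =>
    have hg : g ∈ eA C φ := mem_eA h List.mem_cons_self
    have ht : ∀ k ∈ t, k ∈ eA C φ := fun k hk => mem_eA h (List.mem_cons_of_mem _ hk)
    refine ⟨g, hg, t, rfl, ht, ?_, ?_, gdn_step hv (hb.a g hg)⟩
    · rw [List.map_cons, map_shift (gdn_gd a R _ hv) (hb.a g hg)]
      intro k hk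
      exact hb.pr _ (hb.p g (eA_eK hg) k (eA_eK (ht k hk)))
    · rw [List.length_cons] at hlen
      omega

theorem prism_x (hl : LstStmt) (hb : Big C φ ψ θ n S Q P R) {v : V} (hv : v ∈ Gdn a R (n + 3))
    {x : C.X} (hx : C.dim x ≤ n) (hlφ : ∀ l ∈ (φ x).support, l.length = C.dim x + 1)
    (hc : ∀ v, ∃ q ∈ Q, c v = a v q) {l : List G} (h : l ∈ (φ x).support)
    (l' : List V) (h' : l' ∈ (prism c (l.map (a v))).support) :
    ∃ w ∈ Gdn a R (n + 2), ∃ gs : List G,
      l' = w :: gs.map (a w) ∧ gs.length ≤ n + 1 ∧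
      ∀ x ∈ 1 :: gs, ∀ y ∈ 1 :: gs, x⁻¹ * y ∈ P := by
  obtain ⟨g, hg, t, rfl, ht, -, htn, hw⟩ := lists_x hb hv hx hlφ h
  have hgd := gdn_gd a R _ hv
  obtain ⟨hlen, hmem⟩ := (hl V V).2.2.2.2.2.1 c _ l' h'
  obtain ⟨t', rfl⟩ := prism_head c (a v g) (t.map (a v)) l' h'
  have hk : ∀ y ∈ t', ∃ k ∈ eK C φ Q, y = a v k := by
    intro y hy
    have hbase : ∀ y ∈ (g :: t).map (a v), ∃ k ∈ eA C φ, y = a v k := by
      intro y hy
      obtain ⟨k, hk1, hk2⟩ := List.mem_map.1 hy
      exact ⟨k, mem_eA h hk1, hk2.symm⟩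
    rcases hmem y (List.mem_cons_of_mem _ hy) with h1 | h1
    · obtain ⟨k, hk1, hk2⟩ := hbase y h1
      exact ⟨k, eA_eK hk1, hk2⟩
    · obtain ⟨u, hu1, hu2⟩ := List.mem_map.1 h1
      obtain ⟨k, hk1, rfl⟩ := hbase u hu1
      obtain ⟨q, hq, hcq⟩ := hc (a v k)
      refine ⟨k * q, mul_eK hk1 hq, ?_⟩
      rw [← hu2, hcq, gd_mul hgd (hb.a k hk1) (hb.q q hq)]
  obtain ⟨ks, hks1, hks2⟩ := lists_of a v t' hk
  refine ⟨a v g, hw, ks.map fun k => g⁻¹ * k, ?_, ?_, pair_P hb (eA_eK hg) ks hks1⟩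
  · rw [map_shift hgd (hb.a g hg) ks fun k hk => hb.pr _ (hb.p g (eA_eK hg) k (hks1 k hk)), hks2]
  · rw [List.length_map]
    have h1 : ks.length = t'.length := by rw [← hks2, List.length_map]
    rw [List.length_map, List.length_cons, List.length_cons] at hlen
    omega

/-- Step F. -/
theorem step_F (hb : Big C φ ψ θ n S Q P R) (hB : BarD C φ ψ θ)
    (ha : ∀ g, Function.Bijective fun v => a v g) {v : V} (hv : v ∈ Gdn a R (n + 3))
    {x : C.X} (hx : C.dim x ≤ n) :
    lin (hL C ψ a P R) ((φ x).mapDomain (List.map (a v))) = bet a v (lin ψ (φ x)) := by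
  rw [lin_map]
  unfold bet
  rw [map_lin]
  apply lin_congr
  intro l hl
  obtain ⟨g, hg, t, rfl, ht, hmap, htn, hw⟩ := lists_x hb hv hx (hB.lφ x) hl
  have hP := pair_P hb (eA_eK (Q := Q) hg) t fun k hk => eA_eK (ht k hk)
  have hlen : (t.map fun k => g⁻¹ * k).length ≤ n + 1 := by rw [List.length_map]; omega
  rw [hmap, (hb.hlc V a ha _ hw _ hlen hP).1]
  have hgd := gdn_gd a R _ hv
  have hsup : ∀ p ∈ (ψ (1 :: t.map fun k => g⁻¹ * k)).support, p.1 ∈ R := by
    apply hb.psi _ _ hlen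
    intro k hk
    obtain ⟨k', hk1, rfl⟩ := List.mem_map.1 hk
    exact hb.p g (eA_eK hg) k' (eA_eK (ht k' hk1))
  rw [bet_trl hgd (hb.a g hg) _ hsup, ← hB.eq]
  unfold bet
  congr 1
  congr 1
  rw [List.map_cons, mul_one, List.map_map]
  congr 1
  conv_rhs => rw [← List.map_id t]
  apply List.map_congr_left
  intro k _
  show g * (g⁻¹ * k) = k
  rw [mul_inv_cancel_left]

/-- Step G. -/
theorem step_G (hl : LstStmt) (hb : Big C φ ψ θ n S Q P R) (hB : BarD C φ ψ θ)
    (ha : ∀ g, Function.Bijective fun v => a v g) {v : V} (hv : v ∈ Gdn a R (n + 3))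
    {x : C.X} (hx : C.dim x ≤ n) (hc : ∀ v, ∃ q ∈ Q, c v = a v q) :
    lin (colF (dV C a R)) (lin (hL C ψ a P R)
      (lin (prism c) ((φ x).mapDomain (List.map (a v))))) =
    lin (hL C ψ a P R) (lin lbd (lin (prism c) ((φ x).mapDomain (List.map (a v))))) := by
  rw [lin_lin (colF (dV C a R)) (hL C ψ a P R), lin_lin (hL C ψ a P R) lbd]
  apply lin_congr
  intro l' hl'
  obtain ⟨u, hu, hu'⟩ := mem_supp_lin hl'
  obtain ⟨l, hl1, rfl⟩ := mem_supp_map hu
  obtain ⟨w, hw, gs, rfl, hlen, hP⟩ := prism_x hl hb hv hx (hB.lφ x) hc hl1 l' hu'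
  ext z
  rw [← sum_mul_eq]
  exact (hb.hlc V a ha w hw gs hlen hP).2 z

/-- Step H. -/
theorem step_H (hb : Big C φ ψ θ n S Q P R) (hn : ∀ x, C.dim x ≤ n) {v : V}
    (hv : v ∈ Gdn a R (n + 3)) (z : G × C.X →₀ ℤ) (hz : ∀ p ∈ z.support, p.1 ∈ R) :
    lin (colF (dV C a R)) (bet a v z) = bet a v (lin C.bdc z) := by
  unfold bet
  rw [lin_map, map_lin]
  apply lin_congr
  intro p hp
  have h1 : a v p.1 ∈ Gdn a R (n + 2) := gdn_step hv (hz p hp)
  rw [colF_dV _ _ (gdn_anti a R ((hn p.2).trans (by omega)) h1),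
    bet_trl (gdn_gd a R _ hv) (hz p hp) _ fun q hq => hb.r _ (mem_eC hq)]
  rfl

/-- Step I. -/
theorem step_I (hl : LstStmt) (hb : Big C φ ψ θ n S Q P R) (hB : BarD C φ ψ θ) {v : V}
    (hv : v ∈ Gdn a R (n + 3)) (x : C.X) :
    lin (colF (tM C φ ψ θ a P R c)) (bet a v (C.row x)) =
      bet a v (lin (fun p => trl p.1 (θ p.2)) (C.row x)) -
      lin (hL C ψ a P R) (lin (prism c) (lin lbd ((φ x).mapDomain (List.map (a v))))) := by
  have hgd := gdn_gd a R _ hv
  have h1 : lin (colF (tM C φ ψ θ a P R c)) (bet a v (C.row x)) =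
      lin (fun p : G × C.X => bet a v (trl p.1 (θ p.2)) - lin (hL C ψ a P R) (lin (prism c)
        (((φ p.2).mapDomain (List.map (p.1 * ·))).mapDomain (List.map (a v))))) (C.row x) := by
    unfold bet
    rw [lin_map]
    apply lin_congr
    intro p hp
    have hpR : p.1 ∈ R := hb.r _ (mem_eC hp)
    rw [colF_tM _ _ (gdn_gd a R _ (gdn_step hv hpR)),
      bet_trl hgd hpR _ fun q hq => hb.t _ (mem_eC hq)]
    congr 3
    rw [← Finsupp.mapDomain_comp]
    apply map_congr'
    intro l hl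
    show l.map (a (a v p.1)) = (l.map (p.1 * ·)).map (a v)
    rw [List.map_map]
    apply List.map_congr_left
    intro k hk
    show a (a v p.1) k = a v (p.1 * k)
    exact gd_mul hgd hpR (hb.a k (mem_eA hl hk))
  rw [h1, lin_fsub]
  congr 1
  · unfold bet
    rw [map_lin]
  · have h2 : lin (fun p : G × C.X => lin (hL C ψ a P R) (lin (prism c)
        (((φ p.2).mapDomain (List.map (p.1 * ·))).mapDomain (List.map (a v))))) (C.row x) =
        lin (hL C ψ a P R) (lin (prism c) ((lin (fun p : G × C.X =>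
          (φ p.2).mapDomain (List.map (p.1 * ·))) (C.row x)).mapDomain (List.map (a v)))) := by
      rw [map_lin, lin_lin (prism c), lin_lin (hL C ψ a P R)]
    rw [h2]
    by_cases hx : C.dim x = 0
    · have hr : C.row x = 0 := by
        unfold Res.row
        apply Finset.sum_eq_zero
        intro y _
        have : C.bd x y = 0 := by
          by_contra h
          have := C.bd_dim x y h
          omega
        rw [this]
        simp
      rw [hr, lin_zero, Finsupp.mapDomain_zero, lin_zero, lin_zero]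
      have h3 : lin (prism c) (lin lbd ((φ x).mapDomain (List.map (a v)))) = 0 := by
        rw [lin_lin (prism c) lbd, lin_map]
        have : ∀ l ∈ (φ x).support, lin (prism c) (lbd (List.map (a v) l)) = 0 := by
          intro l hl'
          have hlen := hB.lφ x l hl'
          rw [hx, zero_add, List.length_eq_one_iff] at hlen
          obtain ⟨g, rfl⟩ := hlen
          show lin (prism c) (Finsupp.single [] 1 - (0 : List V →₀ ℤ).mapDomain
            (List.cons (a v g))) = 0
          rw [Finsupp.mapDomain_zero, sub_zero, lin_single_one]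
          rfl
        rw [lin_congr this]
        unfold lin Finsupp.sum
        simp
      rw [h3, lin_zero]
    · rw [← hB.cφ x hx, map_lin, lin_map]
      congr 2
      apply lin_congr
      intro l _
      exact ((hl G V).2.1 (a v) l).symm

end good

section final

variable {G : Type} [Group G] {C : Res G} {φ : C.X → (List G →₀ ℤ)}
    {ψ : List G → (G × C.X →₀ ℤ)} {θ : C.X → (G × C.X →₀ ℤ)}
    {n : ℕ} {S Q P R : Finset G} {V : Type} [Fintype V] [DecidableEq V]
    {a : V → G → V} {c : V → V}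

/-- The lists of the image of `φ` belong to the coarse complex. -/
theorem mem_Im (hb : Big C φ ψ θ n S Q P R) {v : V} (hv : v ∈ Gdn a R (n + 3)) {x : C.X}
    (hx : C.dim x ≤ n) (hl : ∀ l ∈ (φ x).support, l.length = C.dim x + 1)
    {l : List G} (h : l ∈ (φ x).support) : (l.map fun g => c (a v g)) ∈ Im a S c n := by
  have hlen := hl l h
  have hgd := gdn_gd a R _ hv
  refine ⟨?_, ?_, l.map (a v), ?_, ?_⟩
  · intro h0
    rw [List.map_eq_nil_iff] at h0
    rw [h0] at hlen
    simp at hlen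
  · rw [List.length_map]
    omega
  · intro u hu w hw
    obtain ⟨g, hg, rfl⟩ := List.mem_map.1 hu
    obtain ⟨k, hk, rfl⟩ := List.mem_map.1 hw
    have hg' := mem_eA h hg
    have hk' := mem_eA h hk
    refine ⟨g⁻¹ * k, hb.s g hg' k hk', ?_⟩
    rw [gd_mul hgd (hb.a g hg') (hb.pr _ (hb.p g (eA_eK hg') k (eA_eK hk'))),
      mul_inv_cancel_left]
  · rw [List.map_map]
    rfl

theorem step_D (hb : Big C φ ψ θ n S Q P R) [Fintype (Im a S c n)] {v : V}
    (hv : v ∈ Gdn a R (n + 3)) {x : C.X} (hx : C.dim x ≤ n)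
    (hl : ∀ l ∈ (φ x).support, l.length = C.dim x + 1) :
    lin (colF (hM C ψ a P R S c n)) (colF (fM C φ a R S c n) (v, x)) =
      lin (hL C ψ a P R) ((φ x).mapDomain (List.map fun g => c (a v g))) := by
  have hgd := gdn_gd a R _ hv
  have hy : (colF (fM C φ a R S c n) (v, x)).mapDomain Subtype.val =
      (φ x).mapDomain (List.map fun g => c (a v g)) := by
    ext l'
    by_cases h : l' ∈ Im a S c n
    · have := Finsupp.mapDomain_apply Subtype.val_injective
        (colF (fM C φ a R S c n) (v, x)) ⟨l', h⟩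
      rw [this]
      show fM C φ a R S c n ⟨l', h⟩ (v, x) = _
      unfold fM
      rw [if_pos hgd]
    · rw [Finsupp.mapDomain_of_notMem_range]
      · symm
        by_contra h0
        obtain ⟨l, hl1, rfl⟩ := mem_supp_map (Finsupp.mem_support_iff.2 h0)
        exact h (mem_Im hb hv hx hl hl1)
      · rintro ⟨l, rfl⟩
        exact h l.2
  rw [← hy, lin_map]
  apply lin_congr
  intro l _
  ext z
  rfl

theorem bet_add' {X : Type} (v : V) (z z' : G × X →₀ ℤ) :
    bet a v z + bet a v z' = bet a v (z + z') := by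
  unfold bet
  rw [Finsupp.mapDomain_add]

/-- The column of a good point vanishes. -/
theorem good_col (hl : LstStmt) (hb : Big C φ ψ θ n S Q P R) (hB : BarD C φ ψ θ)
    (hn : ∀ x, C.dim x ≤ n) (ha : ∀ g, Function.Bijective fun v => a v g)
    (hc : ∀ v, ∃ q ∈ Q, c v = a v q) [Fintype (Im a S c n)] {v : V}
    (hv : v ∈ Gdn a R (n + 3)) (x : C.X) :
    colF (1 - hM C ψ a P R S c n * fM C φ a R S c n - dV C a R * tM C φ ψ θ a P R c -
      tM C φ ψ θ a P R c * dV C a R) (v, x) = 0 := by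
  have hgd := gdn_gd a R _ hv
  rw [colF_sub, colF_sub, colF_sub, colF_one, colF_mul, colF_mul, colF_mul,
    step_D hb hv (hn x) (hB.lφ x), colF_tM v x hgd, lin_sub,
    step_G hl hb hB ha hv (hn x) hc, step_H hb hn hv _ fun p hp => hb.t _ (mem_eC hp),
    colF_dV v x (gdn_anti a R ((hn x).trans (by omega)) hv), step_I hl hb hB hv x]
  have e1 : bet a v (lin C.bdc (θ x)) + bet a v (lin (fun p => trl p.1 (θ p.2)) (C.row x)) =
      Finsupp.single (v, x) 1 - lin (hL C ψ a P R) ((φ x).mapDomain (List.map (a v))) := by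
    rw [bet_add', ← hB.ho x, step_F hb hB ha hv (hn x)]
    unfold bet
    rw [map_sub', Finsupp.mapDomain_single]
    show Finsupp.single (a v 1, x) 1 - _ = _
    rw [gd_one hgd]
  have e2 : lin (hL C ψ a P R) (lin lbd (lin (prism c) ((φ x).mapDomain (List.map (a v))))) +
      lin (hL C ψ a P R) (lin (prism c) (lin lbd ((φ x).mapDomain (List.map (a v))))) =
      lin (hL C ψ a P R) ((φ x).mapDomain (List.map fun g => c (a v g))) -
        lin (hL C ψ a P R) ((φ x).mapDomain (List.map (a v))) := by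
    rw [← lin_add, ← lin_sub]
    congr 1
    rw [lin_lin lbd, lin_lin (prism c), ← lin_fadd, lin_map]
    have h1 : lin (fun l : List G => lin lbd (prism c (List.map (a v) l)) +
        lin (prism c) (lbd (List.map (a v) l))) (φ x) =
        lin (fun l : List G => Finsupp.single ((l.map (a v)).map c) 1 -
          Finsupp.single (l.map (a v)) 1) (φ x) := by
      apply lin_congr
      intro l _
      exact (hl V V).2.2.1 c _
    rw [h1, lin_fsub, ← map_eq_lin, ← map_eq_lin]
    congr 2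
    funext l
    rw [List.map_map]
    rfl
  have e3 : ∀ A B D E F H K : (V × C.X →₀ ℤ), D + F = A - K → E + H = B - K →
      A - B - (D - E) - (F - H) = 0 := by
    intro A B D E F H K h1 h2
    have h3 : A - B - (D - E) - (F - H) = A - B - (D + F) + (E + H) := by abel
    rw [h3, h1, h2]
    abel
  exact e3 _ _ _ _ _ _ _ e1 e2

/-- The entries of the homotopy. -/
theorem tM_entry (hl : LstStmt) (hB : BarD C φ ψ θ) {v : V} {x : C.X} {w : V × C.X}
    (h : w ∈ (colF (tM C φ ψ θ a P R c) (v, x)).support) :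
    v ∈ Gd a R ∧ ((∃ q ∈ (θ x).support, w = (a v q.1, q.2)) ∨
      ∃ g ∈ eA C φ, ∃ gs : List G, (∀ g ∈ gs, g ∈ P) ∧ gs.length = C.dim x + 1 ∧
        ∃ q ∈ (ψ (1 :: gs)).support, w = (a (a v g) q.1, q.2)) := by
  classical
  by_cases hv : v ∈ Gd a R
  · refine ⟨hv, ?_⟩
    rw [colF_tM v x hv] at h
    rcases Finset.mem_union.1 (Finsupp.support_sub h) with h1 | h1
    · left
      exact bet_supp a v _ h1
    · right
      obtain ⟨l', hl', hw⟩ := mem_supp_lin h1
      obtain ⟨u, hu, hu'⟩ := mem_supp_lin hl'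
      obtain ⟨l, hl1, rfl⟩ := mem_supp_map hu
      have hlen := hB.lφ x l hl1
      cases l with
      | nil => simp at hlen
      | cons g t =>
        obtain ⟨hlen', -⟩ := (hl V V).2.2.2.2.2.1 c _ l' hu'
        obtain ⟨t', rfl⟩ := prism_head c (a v g) (t.map (a v)) l' hu'
        rcases hL_cases (ψ := ψ) a P R (a v g) t' with h0 | ⟨gs, hgs, hgl, he⟩
        · rw [h0] at hw
          simp at hw
        · rw [he] at hw
          obtain ⟨q, hq, hwq⟩ := bet_supp a _ _ hw
          refine ⟨g, mem_eA hl1 List.mem_cons_self, gs, hgs, ?_, q, hq, hwq⟩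
          rw [hgl]
          rw [List.length_map, List.length_cons, List.length_cons] at hlen'
          rw [List.length_cons] at hlen
          omega
  · rw [colF_tM0 v x hv] at h
    simp at h

/-- The `l1` norm of the columns. -/
theorem tM_col (hl : LstStmt) (hB : BarD C φ ψ θ) (hn : ∀ x, C.dim x ≤ n) {B : ℝ}
    (hB0 : 0 ≤ B) (hE : ∀ gs : List G, (∀ g ∈ gs, g ∈ P) → gs.length ≤ n + 1 →
      n1 (ψ (1 :: gs)) ≤ B) (v : V) (x : C.X) :
    n1 (colF (tM C φ ψ θ a P R c) (v, x)) ≤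
      ∑ x : C.X, (n1 (θ x) + n1 (φ x) * (n + 1) * B) := by
  have hpos : ∀ x : C.X, 0 ≤ n1 (θ x) + n1 (φ x) * (n + 1) * B := by
    intro x
    have h1 := n1_nonneg (θ x)
    have h2 := n1_nonneg (φ x)
    positivity
  refine le_trans ?_ (Finset.single_le_sum (f := fun x => n1 (θ x) + n1 (φ x) * (n + 1) * B)
    (fun x _ => hpos x) (Finset.mem_univ x))
  by_cases hv : v ∈ Gd a R
  · rw [colF_tM v x hv]
    refine (n1_sub _ _).trans (add_le_add (n1_map _ _) ?_)
    have h1 : n1 (lin (prism c) ((φ x).mapDomain (List.map (a v)))) ≤ n1 (φ x) * (n + 1) := by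
      rw [lin_map]
      apply n1_lin
      intro l hl'
      rw [n1_int]
      have h2 := (hl V V).2.2.2.2.2.2.2 c (l.map (a v))
      rw [List.length_map, hB.lφ x l hl'] at h2
      have h3 : ((C.dim x + 1 : ℕ) : ℤ) ≤ (n : ℤ) + 1 := by
        have := hn x
        push_cast
        omega
      have h4 := h2.trans h3
      exact_mod_cast h4
    refine (n1_lin (K := B) ?_).trans (mul_le_mul_of_nonneg_right h1 hB0)
    intro l' hl'
    cases l' with
    | nil =>
      rw [hL_nil, n1_zero]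
      exact hB0
    | cons w t' =>
      obtain ⟨u, hu, hu'⟩ := mem_supp_lin hl'
      obtain ⟨l, hl1, rfl⟩ := mem_supp_map hu
      have hlen := hB.lφ x l hl1
      obtain ⟨hlen', -⟩ := (hl V V).2.2.2.2.2.1 c _ _ hu'
      rcases hL_cases (ψ := ψ) a P R w t' with h0 | ⟨gs, hgs, hgl, he⟩
      · rw [h0, n1_zero]
        exact hB0
      · rw [he]
        refine (n1_map _ _).trans (hE gs hgs ?_)
        rw [hgl]
        rw [List.length_map, List.length_cons] at hlen'
        have := hn x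
        omega
  · rw [colF_tM0 v x hv, n1_zero]
    exact hpos x

end final

theorem tms (hlc : HlcStmt) (lst : LstStmt) (sch : SchStmt) (gdn : GdnStmt) : TmsStmt := by
  classical
  intro G _ C φ ψ θ hB n hn
  refine ⟨(eA C φ ×ˢ eA C φ).image fun p => p.1⁻¹ * p.2, ?_⟩
  intro S Q hS
  refine ⟨(eK C φ Q ×ˢ eK C φ Q).image fun p => p.1⁻¹ * p.2, ?_⟩
  intro P hP
  obtain ⟨R1, hPR1, h1⟩ := hlc G C φ ψ θ hB n hn P
  obtain ⟨E, B, hB0, hE⟩ := short_bd ψ P (n + 1)
  set K1 : ℝ := ∑ x : C.X, (n1 (θ x) + n1 (φ x) * (n + 1) * B) with hK1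
  set s : Finset (G × G) := (eA C φ ∪ eC C θ) ×ˢ (insert 1 E) with hs
  have hK0 : 0 ≤ K1 := by
    apply Finset.sum_nonneg
    intro x _
    have h1 := n1_nonneg (θ x)
    have h2 := n1_nonneg (φ x)
    positivity
  have hK2 : 0 ≤ K1 * (1 + Fintype.card C.X * s.card) := by positivity
  refine ⟨K1 * (1 + Fintype.card C.X * s.card) + 1,
    R1 ∪ {1} ∪ eA C φ ∪ Q ∪ eC C θ ∪ eC C C.row ∪ E, by linarith, ?_⟩
  intro R' hR'
  have hsub : ∀ g, (g ∈ R1 ∨ g = 1 ∨ g ∈ eA C φ ∨ g ∈ Q ∨ g ∈ eC C θ ∨ g ∈ eC C C.row ∨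
      g ∈ E) → g ∈ R' := by
    intro g hg
    apply hR'
    simp only [Finset.mem_union, Finset.mem_singleton]
    tauto
  have hb : Big C φ ψ θ n S Q P R' := by
    refine ⟨hsub 1 (by tauto), fun g hg => hsub g (by tauto), fun g hg => hsub g (by tauto),
      ?_, ?_, fun g hg => hsub g (Or.inl (hPR1 hg)), fun g hg => hsub g (by tauto),
      fun g hg => hsub g (by tauto), ?_, ?_⟩
    · intro g hg k hk
      exact hS (Finset.mem_image.2 ⟨(g, k), Finset.mem_product.2 ⟨hg, hk⟩, rfl⟩)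
    · intro g hg k hk
      exact hP (Finset.mem_image.2 ⟨(g, k), Finset.mem_product.2 ⟨hg, hk⟩, rfl⟩)
    · intro gs hgs hlen p hp
      have := (hE gs hgs hlen).1 p hp
      exact hsub _ (by tauto)
    · intro V _ _ a ha
      exact h1 R' (fun g hg => hsub g (Or.inl hg)) V a ha
  obtain ⟨⟨M, hgd⟩, -⟩ := gdn G R' (n + 3)
  refine ⟨M * Fintype.card C.X, ?_⟩
  intro V _ _ a c _ ha hc
  refine ⟨?_, ?_, ?_⟩
  · intro w v hwv
    obtain ⟨v, x⟩ := v
    have hmem : w ∈ (colF (tM C φ ψ θ a P R' c) (v, x)).support := by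
      rw [Finsupp.mem_support_iff]
      intro h0
      apply hwv
      show ((tM C φ ψ θ a P R' c w (v, x) : ℤ) : ℝ) = 0
      have h0' : tM C φ ψ θ a P R' c w (v, x) = 0 := h0
      rw [h0', Int.cast_zero]
    obtain ⟨-, ⟨q, hq, rfl⟩ | ⟨g, -, gs, -, hgl, q, hq, rfl⟩⟩ := tM_entry lst hB hmem
    · have := hB.lθ x q hq
      show (C.dim q.2 : ℤ) = C.dim x + 1
      omega
    · have := hB.lψ _ q hq
      rw [List.length_cons] at this
      show (C.dim q.2 : ℤ) = C.dim x + 1
      omega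
  · refine (bd_prop sch a ha (tM C φ ψ θ a P R' c) s K1 hK0 ?_ ?_).mono hK2 (by linarith)
    · rintro w ⟨v, x⟩ hwv
      have hmem : w ∈ (colF (tM C φ ψ θ a P R' c) (v, x)).support :=
        Finsupp.mem_support_iff.2 hwv
      obtain ⟨hv, ⟨q, hq, rfl⟩ | ⟨g, hg, gs, hgs, hgl, q, hq, rfl⟩⟩ := tM_entry lst hB hmem
      · refine ⟨(q.1, 1), Finset.mem_product.2 ⟨Finset.mem_union_right _ (mem_eC hq),
          Finset.mem_insert_self _ _⟩, ?_⟩
        show a v q.1 = a (a v q.1) 1
        rw [gd_mul hv (hb.t _ (mem_eC hq)) hb.one, mul_one]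
      · refine ⟨(g, q.1), Finset.mem_product.2 ⟨Finset.mem_union_left _ hg,
          Finset.mem_insert_of_mem ?_⟩, rfl⟩
        apply (hE gs hgs ?_).1 q hq
        have := hn x
        omega
    · rintro ⟨v, x⟩
      have := tM_col (a := a) (c := c) (P := P) (R := R') lst hB hn hB0
        (fun gs h h' => (hE gs h h').2) v x
      rw [n1_univ] at this
      exact this
  · have hfin : (Gdn a R' (n + 3))ᶜ.Finite := Set.toFinite _
    have hcol : ∀ b : V × C.X, b ∉ hfin.toFinset ×ˢ (Finset.univ : Finset C.X) →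
        ∀ w, cst (1 - hM C ψ a P R' S c n * fM C φ a R' S c n -
          dV C a R' * tM C φ ψ θ a P R' c - tM C φ ψ θ a P R' c * dV C a R') w b = 0 := by
      rintro ⟨v, x⟩ hb' w
      have hv : v ∈ Gdn a R' (n + 3) := by
        by_contra h
        exact hb' (Finset.mem_product.2 ⟨hfin.mem_toFinset.2 h, Finset.mem_univ _⟩)
      have h2 := good_col (c := c) lst hb hB hn ha hc hv x
      have h3 : ((colF (1 - hM C ψ a P R' S c n * fM C φ a R' S c n -
          dV C a R' * tM C φ ψ θ a P R' c - tM C φ ψ θ a P R' c * dV C a R') (v, x) w : ℤ) : ℝ)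
          = 0 := by
        rw [h2, Finsupp.zero_apply, Int.cast_zero]
      exact h3
    refine (rk_cols _ _ hcol).trans ?_
    rw [Finset.card_product, Finset.card_univ]
    have h4 : hfin.toFinset.card = ((Gdn a R' (n + 3))ᶜ).ncard :=
      (Set.ncard_eq_toFinset_card _ hfin).symm
    rw [h4]
    calc ((Gdn a R' (n + 3))ᶜ).ncard * Fintype.card C.X ≤ (M * nb a R') * Fintype.card C.X :=
          Nat.mul_le_mul_right _ (hgd V a ha)
      _ = M * Fintype.card C.X * nb a R' := by ring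

end Pool.Agent.LT.H76
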