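import Pool.Agent.Helper61_LT.Stmts
import Pool.Agent.Helper61_LT.Tools

/-!
# LT: lemmas about `lin`, `mapDomain`, columns of matrices, the `l1` norm
-/

set_option autoImplicit false
set_option linter.unusedSectionVars false

namespace Pool.Agent.LT.H76

open Matrix Finsupp

section lin

variable {A B D : Type}

theorem lin_eq (F : A → (B →₀ ℤ)) (z : A →₀ ℤ) : lin F z = Finsupp.linearCombination ℤ F z := by
  rw [Finsupp.linearCombination_apply]
  rfl

theorem lin_zero (F : A → (B →₀ ℤ)) : lin F 0 = 0 := by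
  rw [lin_eq, _root_.map_zero]

theorem lin_add (F : A → (B →₀ ℤ)) (z z' : A →₀ ℤ) : lin F (z + z') = lin F z + lin F z' := by
  rw [lin_eq, lin_eq, lin_eq, _root_.map_add]

theorem lin_sub (F : A → (B →₀ ℤ)) (z z' : A →₀ ℤ) : lin F (z - z') = lin F z - lin F z' := by
  rw [lin_eq, lin_eq, lin_eq, _root_.map_sub]

theorem lin_smul (F : A → (B →₀ ℤ)) (k : ℤ) (z : A →₀ ℤ) : lin F (k • z) = k • lin F z := by
  rw [lin_eq, lin_eq, LinearMap.map_smul]

theorem lin_single (F : A → (B →₀ ℤ)) (a : A) (k : ℤ) : lin F (Finsupp.single a k) = k • F a := by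
  rw [lin_eq, Finsupp.linearCombination_single]

theorem lin_single_one (F : A → (B →₀ ℤ)) (a : A) : lin F (Finsupp.single a 1) = F a := by
  rw [lin_single, one_smul]

theorem lin_congr {F F' : A → (B →₀ ℤ)} {z : A →₀ ℤ} (h : ∀ a ∈ z.support, F a = F' a) :
    lin F z = lin F' z := by
  unfold lin
  exact Finsupp.sum_congr fun a ha => by rw [h a ha]

theorem lin_lin (F : B → (D →₀ ℤ)) (H : A → (B →₀ ℤ)) (z : A →₀ ℤ) :
    lin F (lin H z) = lin (fun a => lin F (H a)) z := by
  have : (fun a => lin F (H a)) = ⇑(Finsupp.linearCombination ℤ F) ∘ H := by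
    funext a
    exact lin_eq F (H a)
  rw [this, lin_eq, lin_eq, lin_eq, Finsupp.apply_linearCombination]

theorem lin_map (F : B → (D →₀ ℤ)) (m : A → B) (z : A →₀ ℤ) :
    lin F (z.mapDomain m) = lin (fun a => F (m a)) z := by
  rw [lin_eq, lin_eq, Finsupp.linearCombination_mapDomain]
  rfl

theorem map_eq_lin (m : A → B) (z : A →₀ ℤ) :
    z.mapDomain m = lin (fun a => Finsupp.single (m a) 1) z := by
  unfold lin Finsupp.mapDomain
  apply Finsupp.sum_congr
  intro a _
  rw [Finsupp.smul_single, smul_eq_mul, mul_one]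

theorem map_lin (m : B → D) (F : A → (B →₀ ℤ)) (z : A →₀ ℤ) :
    (lin F z).mapDomain m = lin (fun a => (F a).mapDomain m) z := by
  rw [map_eq_lin, lin_lin]
  apply lin_congr
  intro a _
  rw [map_eq_lin]

theorem lin_fsub (F H : A → (B →₀ ℤ)) (z : A →₀ ℤ) :
    lin (fun a => F a - H a) z = lin F z - lin H z := by
  unfold lin
  rw [← Finsupp.sum_sub]
  apply Finsupp.sum_congr
  intro a _
  rw [smul_sub]

theorem lin_fadd (F H : A → (B →₀ ℤ)) (z : A →₀ ℤ) :
    lin (fun a => F a + H a) z = lin F z + lin H z := by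
  unfold lin
  rw [← Finsupp.sum_add]
  apply Finsupp.sum_congr
  intro a _
  rw [smul_add]

theorem lin_id (z : A →₀ ℤ) : lin (fun a => Finsupp.single a 1) z = z := by
  rw [← map_eq_lin (fun a => a)]
  exact Finsupp.mapDomain_id

theorem map_congr' {m m' : A → B} {z : A →₀ ℤ} (h : ∀ a ∈ z.support, m a = m' a) :
    z.mapDomain m = z.mapDomain m' := Finsupp.mapDomain_congr h

theorem map_sub' (m : A → B) (z z' : A →₀ ℤ) :
    (z - z').mapDomain m = z.mapDomain m - z'.mapDomain m := by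
  rw [map_eq_lin, map_eq_lin, map_eq_lin, lin_sub]

theorem mem_supp_map {m : A → B} {z : A →₀ ℤ} {b : B} (h : b ∈ (z.mapDomain m).support) :
    ∃ a ∈ z.support, m a = b := by
  classical
  have := Finsupp.mapDomain_support h
  rw [Finset.mem_image] at this
  exact this

theorem mem_supp_lin {F : A → (B →₀ ℤ)} {z : A →₀ ℤ} {b : B} (h : b ∈ (lin F z).support) :
    ∃ a ∈ z.support, b ∈ (F a).support := by
  classical
  unfold lin at h
  have := Finsupp.support_sum h
  rw [Finset.mem_biUnion] at this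
  obtain ⟨a, ha, hb⟩ := this
  exact ⟨a, ha, Finsupp.support_smul hb⟩

end lin

section col

variable {U W Y : Type} [Fintype U] [Fintype W] [Fintype Y]

/-- Column of a matrix, as a chain. -/
noncomputable def colF (M : Matrix W U ℤ) (u : U) : W →₀ ℤ :=
  Finsupp.equivFunOnFinite.symm fun w => M w u

theorem colF_apply (M : Matrix W U ℤ) (u : U) (w : W) : colF M u w = M w u := rfl

theorem colF_mul (M : Matrix W U ℤ) (N : Matrix U Y ℤ) (y : Y) :
    colF (M * N) y = lin (colF M) (colF N y) := by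
  ext w
  rw [colF_apply, Matrix.mul_apply]
  unfold lin
  rw [Finsupp.sum_fintype _ _ (fun u => zero_smul ℤ (colF M u)), Finsupp.finsetSum_apply]
  apply Finset.sum_congr rfl
  intro u _
  rw [Finsupp.smul_apply, colF_apply, colF_apply, smul_eq_mul, mul_comm]

theorem colF_sub (M N : Matrix W U ℤ) (u : U) : colF (M - N) u = colF M u - colF N u := by
  ext w
  rfl

theorem colF_one [DecidableEq U] (u : U) :
    colF (1 : Matrix U U ℤ) u = Finsupp.single u 1 := by
  classical
  ext w
  rw [colF_apply, Matrix.one_apply, Finsupp.single_apply]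
  by_cases h : w = u
  · rw [if_pos h, if_pos h.symm]
  · rw [if_neg h, if_neg fun h' => h h'.symm]

theorem sum_mul_eq (M : Matrix W U ℤ) (z : U →₀ ℤ) (w : W) :
    ∑ u, M w u * z u = lin (colF M) z w := by
  unfold lin
  rw [Finsupp.sum_fintype _ _ (fun u => zero_smul ℤ (colF M u)), Finsupp.finsetSum_apply]
  apply Finset.sum_congr rfl
  intro u _
  rw [Finsupp.smul_apply, colF_apply, smul_eq_mul, mul_comm]

end col

section n1

variable {A B : Type}

/-- The `l1` norm of a chain. -/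
noncomputable def n1 (z : A →₀ ℤ) : ℝ := ∑ a ∈ z.support, |(z a : ℝ)|

theorem n1_nonneg (z : A →₀ ℤ) : 0 ≤ n1 z := Finset.sum_nonneg fun _ _ => abs_nonneg _

theorem n1_eq (z : A →₀ ℤ) (s : Finset A) (h : z.support ⊆ s) : n1 z = ∑ a ∈ s, |(z a : ℝ)| := by
  apply Finset.sum_subset h
  intro a _ ha
  rw [Finsupp.notMem_support_iff.1 ha]
  simp

theorem n1_univ [Fintype A] (z : A →₀ ℤ) : n1 z = ∑ a, |(z a : ℝ)| :=
  n1_eq z _ (Finset.subset_univ _)

theorem n1_zero : n1 (0 : A →₀ ℤ) = 0 := by simp [n1]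

theorem n1_add (z z' : A →₀ ℤ) : n1 (z + z') ≤ n1 z + n1 z' := by
  classical
  rw [n1_eq (z + z') (z.support ∪ z'.support) Finsupp.support_add,
    n1_eq z (z.support ∪ z'.support) Finset.subset_union_left,
    n1_eq z' (z.support ∪ z'.support) Finset.subset_union_right, ← Finset.sum_add_distrib]
  apply Finset.sum_le_sum
  intro a _
  rw [Finsupp.add_apply]
  push_cast
  exact abs_add_le _ _

theorem n1_neg (z : A →₀ ℤ) : n1 (-z) = n1 z := by
  unfold n1
  rw [Finsupp.support_neg]
  apply Finset.sum_congr rfl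
  intro a _
  simp

theorem n1_sub (z z' : A →₀ ℤ) : n1 (z - z') ≤ n1 z + n1 z' := by
  rw [sub_eq_add_neg]
  exact (n1_add _ _).trans (by rw [n1_neg])

theorem n1_smul (k : ℤ) (z : A →₀ ℤ) : n1 (k • z) ≤ |(k : ℝ)| * n1 z := by
  classical
  rw [n1_eq (k • z) z.support Finsupp.support_smul, n1, Finset.mul_sum]
  apply Finset.sum_le_sum
  intro a _
  rw [Finsupp.smul_apply, smul_eq_mul]
  push_cast
  rw [abs_mul]

theorem n1_sum {ι : Type} (s : Finset ι) (F : ι → (A →₀ ℤ)) :
    n1 (∑ i ∈ s, F i) ≤ ∑ i ∈ s, n1 (F i) := by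
  classical
  induction s using Finset.induction_on with
  | empty => simp [n1_zero]
  | insert i s hi ih =>
    rw [Finset.sum_insert hi, Finset.sum_insert hi]
    exact (n1_add _ _).trans (by gcongr)

theorem n1_lin {F : A → (B →₀ ℤ)} {z : A →₀ ℤ} {K : ℝ} (h : ∀ a ∈ z.support, n1 (F a) ≤ K) :
    n1 (lin F z) ≤ n1 z * K := by
  unfold lin Finsupp.sum
  refine (n1_sum _ _).trans ?_
  rw [n1, Finset.sum_mul]
  apply Finset.sum_le_sum
  intro a ha
  exact (n1_smul _ _).trans (mul_le_mul_of_nonneg_left (h a ha) (abs_nonneg _))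

theorem n1_single (a : A) : n1 (Finsupp.single a (1 : ℤ)) = 1 := by
  unfold n1
  rw [Finsupp.support_single a one_ne_zero]
  simp

theorem n1_map (m : A → B) (z : A →₀ ℤ) : n1 (z.mapDomain m) ≤ n1 z := by
  rw [map_eq_lin]
  refine (n1_lin (K := 1) fun a _ => (n1_single _).le).trans ?_
  rw [mul_one]

theorem n1_int (z : A →₀ ℤ) : n1 z = ((z.sum fun _ k => |k| : ℤ) : ℝ) := by
  unfold n1 Finsupp.sum
  push_cast
  rfl

end n1

end Pool.Agent.LT.H76
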